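import Pool.Agent.J6H40.LipInterp.Main

/-!
# Lipschitz interpolation of `L^γ[0,1]` between `L^β[0,1]` and `L^α[0,1]`

For all exponents `1 ≤ β < γ < α < ∞` the space `L^γ[0,1]` is a Lipschitz interpolation space
between `L^β[0,1]` and `L^α[0,1]`, and the constant can be taken to be `1`.

Proof idea.  For `t > 0` put
`L(t, f) = inf { ‖a‖_β^β + t ‖b‖_α^α : f = a + b } = ∫ φ_t(|f|)`, with
`φ_t(λ) = inf_{0 ≤ u ≤ 1} ((uλ)^β + t((1-u)λ)^α)`.
Splitting `x - y = a + b` and inserting the point `y + b` one gets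
`L(t, (Ux - Uy)/M) ≤ L(t, x - y)` with `M = max (M₀, M₁)`; integrating against `t^{-η-1} dt`
recovers the `γ`-th powers of the `L^γ` norms with the same constant on both sides.
Density of `L^α` in `L^γ` and Fatou's lemma remove the restriction to points of `L^α`.
-/

open MeasureTheory
open scoped ENNReal NNReal

namespace Pool.Agent.Results.MP_6e3e44_an.LipschitzInterpolation

/-- Lebesgue measure on the unit interval `[0,1]` (as a measure on `ℝ` supported on `[0,1]`). -/
noncomputable def unitVol : Measure ℝ := volume.restrict (Set.Icc (0 : ℝ) 1)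

/-- The space `L^β[0,1]` of complex-valued functions (modulo equality almost everywhere). -/
abbrev LL (β : ℝ≥0∞) : Type := Lp ℂ β unitVol

/-- The `L^p[0,1]`-norm of an element `x` of `L^β[0,1]`
(it is `∞` when `x` is not in `L^p[0,1]`). -/
noncomputable def nrm {β : ℝ≥0∞} (p : ℝ≥0∞) (x : LL β) : ℝ≥0∞ := eLpNorm x p unitVol

/-- The element `x` of `L^β[0,1]` belongs to `L^p[0,1]`. -/
def InL {β : ℝ≥0∞} (p : ℝ≥0∞) (x : LL β) : Prop := MemLp x p unitVol

/-- The map `U` on `L^β[0,1]` maps (the elements of `L^β` lying in) `L^p[0,1]` into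
`L^p[0,1]`. -/
def MapsInto {β : ℝ≥0∞} (p : ℝ≥0∞) (U : LL β → LL β) : Prop :=
  ∀ x : LL β, InL p x → InL p (U x)

/-- `‖Ux - Uy‖_p ≤ M ‖x - y‖_p` for all `x, y` (in `L^β[0,1]` and) in `L^p[0,1]`. -/
def LipOn {β : ℝ≥0∞} (p : ℝ≥0∞) (M : ℝ≥0) (U : LL β → LL β) : Prop :=
  ∀ x y : LL β, InL p x → InL p y → nrm p (U x - U y) ≤ M * nrm p (x - y)

/-- `L^γ[0,1]` is a Lipschitz interpolation space with constant `C` between `L^β[0,1]` and
`L^α[0,1]`: whenever `U : L^β → L^β` is `M₀`-Lipschitz for the `L^β` norm, maps `L^α` into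
`L^α` and is `M₁`-Lipschitz there for the `L^α` norm, then `U` maps `L^γ` into `L^γ` and is
`C · max (M₀, M₁)`-Lipschitz there for the `L^γ` norm. -/
def IsLipschitzInterpolationSpace (β γ α : ℝ≥0∞) (C : ℝ≥0) : Prop :=
  ∀ (U : LL β → LL β) (M₀ M₁ : ℝ≥0), LipOn β M₀ U → MapsInto α U → LipOn α M₁ U →
    MapsInto γ U ∧ LipOn γ (C * max M₀ M₁) U

instance : IsFiniteMeasure unitVol := by
  unfold unitVol
  infer_instance

/-- For all `1 ≤ β < γ < α < ∞`, `L^γ[0,1]` is a Lipschitz interpolation space between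
`L^β[0,1]` and `L^α[0,1]`, with constant `1`. -/
theorem result : ∀ β γ α : ℝ≥0∞, 1 ≤ β → β < γ → γ < α → α < ⊤ →
    IsLipschitzInterpolationSpace β γ α 1 := by
  intro β γ α hβ hβγ hγα hα U M₀ M₁ h0 hmap h1
  have main : ∀ x y : LL β, InL γ x → InL γ y →
      nrm γ (U x - U y) ≤ ((1 * max M₀ M₁ : ℝ≥0) : ℝ≥0∞) * nrm γ (x - y) := by
    intro x y hx hy
    rw [one_mul]
    set M : ℝ≥0 := max M₀ M₁ with hM
    rcases (zero_le (a := M)).eq_or_lt with hM0 | hM0
    · have hz : eLpNorm (U x - U y : LL β) β unitVol = 0 := by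
        have hM0' : M₀ = 0 := le_antisymm ((le_max_left M₀ M₁).trans hM0.symm.le) zero_le
        have := h0 x y (Lp.memLp x) (Lp.memLp y)
        rw [hM0', ENNReal.coe_zero, zero_mul] at this
        exact le_antisymm this zero_le
      have hae : (U x - U y : LL β) =ᵐ[unitVol] 0 :=
        (eLpNorm_eq_zero_iff (Lp.aestronglyMeasurable _) (by
          intro h; rw [h] at hβ; exact absurd hβ (by simp))).1 hz
      unfold nrm
      rw [eLpNorm_congr_ae hae]
      simp
    · have e : (M : ℝ≥0∞) = ENNReal.ofReal (M : ℝ) := (ENNReal.ofReal_coe_nnreal).symm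
      rw [e]
      refine J6H40.LipInterp.estimate_full hβ hβγ hγα hα (M := (M : ℝ)) hM0 U ?_ ?_ x y hx hy
      · intro x y
        rw [← e]
        refine (h0 x y (Lp.memLp x) (Lp.memLp y)).trans ?_
        unfold nrm
        gcongr
        exact le_max_left _ _
      · intro x y hx hy
        rw [← e]
        refine (h1 x y hx hy).trans ?_
        unfold nrm
        gcongr
        exact le_max_right _ _
  refine ⟨fun x hx => ?_, main⟩
  -- membership: compare with the image of `0`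
  have hγ0 : InL γ (0 : LL β) :=
    (MemLp.zero (p := γ) (μ := unitVol) (ε := ℂ) (α := ℝ)).ae_eq (Lp.coeFn_zero ℂ β unitVol).symm
  have hα0 : InL α (0 : LL β) :=
    (MemLp.zero (p := α) (μ := unitVol) (ε := ℂ) (α := ℝ)).ae_eq (Lp.coeFn_zero ℂ β unitVol).symm
  have hU0 : MemLp (U 0) γ unitVol := (hmap 0 hα0).mono_exponent hγα.le
  have hdiff : MemLp (U x - U 0 : LL β) γ unitVol := by
    refine ⟨Lp.aestronglyMeasurable _, lt_of_le_of_lt (main x 0 hx hγ0) ?_⟩
    refine ENNReal.mul_lt_top ENNReal.coe_lt_top ?_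
    rw [sub_zero]; exact hx.2
  refine (hdiff.add hU0).ae_eq ?_
  filter_upwards [Lp.coeFn_sub (U x) (U 0)] with ω h
  rw [Pi.add_apply, h, Pi.sub_apply]
  ring

end Pool.Agent.Results.MP_6e3e44_an.LipschitzInterpolation
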